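import Pool.Agent.TH994.Mult.Main

set_option autoImplicit false

namespace Pool.Agent.Results.MP_1ec91f_co.LogSquaredBound

open Filter Asymptotics

/-! ### The notions of the question -/

open Classical in
/-- The Schrödinger operator `D + A_G` of the graph `G` on `n` vertices with the real potential
`D` (the diagonal of the diagonal matrix). -/
noncomputable def schrodinger {n : ℕ} (G : SimpleGraph (Fin n)) (D : Fin n → ℝ) :
    Matrix (Fin n) (Fin n) ℝ := Matrix.diagonal D + G.adjMatrix ℝ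

/-- `D + A_G` is real symmetric. -/
theorem schrodinger_isHermitian {n : ℕ} (G : SimpleGraph (Fin n)) (D : Fin n → ℝ) :
    (schrodinger G D).IsHermitian := by
  classical
  unfold schrodinger
  apply Matrix.IsHermitian.add
  · exact Matrix.isHermitian_diagonal _
  · ext i j
    simp [Matrix.conjTranspose_apply, SimpleGraph.adjMatrix_apply, G.adj_comm]

/-- The second largest eigenvalue `λ₂(D + A_G)`: the eigenvalues are counted with multiplicity and
listed in decreasing order `λ₁ ≥ λ₂ ≥ …`; Mathlib's `eigenvalues₀` is indexed from `0`. -/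
noncomputable def lam2 {n : ℕ} (hn : 2 ≤ n) (G : SimpleGraph (Fin n)) (D : Fin n → ℝ) : ℝ :=
  (schrodinger_isHermitian G D).eigenvalues₀ ⟨1, by rw [Fintype.card_fin]; exact hn⟩

/-- The multiplicity of the number `λ₂(D + A_G)` as an eigenvalue of `D + A_G`
(the dimension of its eigenspace). -/
noncomputable def multLam2 {n : ℕ} (hn : 2 ≤ n) (G : SimpleGraph (Fin n)) (D : Fin n → ℝ) : ℕ :=
  Module.finrank ℝ (Module.End.eigenspace (Matrix.toLin' (schrodinger G D)) (lam2 hn G D))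

/-- The multiplicities of `λ₂(D + A_G)` that occur, over all connected graphs `G` on `n` vertices
with maximum degree at most `Δ` and all real diagonal matrices `D`. -/
def mults (n Δ : ℕ) : Set ℕ :=
  {m | ∃ (hn : 2 ≤ n) (G : SimpleGraph (Fin n)) (D : Fin n → ℝ),
    G.Connected ∧ (∀ v, (G.neighborSet v).ncard ≤ Δ) ∧ m = multLam2 hn G D}

/-- `m_S(n, Δ)`, the maximum of `mult(λ₂, D + A_G)`. -/
noncomputable def mS (n Δ : ℕ) : ℕ := sSup (mults n Δ)

theorem mults_bdd (n Δ : ℕ) : BddAbove (mults n Δ) := by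
  refine ⟨n, ?_⟩
  rintro k ⟨hn, G, D, _, _, rfl⟩
  have := Submodule.finrank_le
    (Module.End.eigenspace (Matrix.toLin' (schrodinger G D)) (lam2 hn G D))
  simpa [multLam2] using this

theorem mS_le (Δ k : ℕ) (hk : 1 ≤ k) (n : ℕ) :
    (mS n Δ : ℝ) ≤ 16 * Δ / (k : ℝ) ^ 2 * n + (Δ + 1) ^ 2 * ((k : ℝ) ^ (2 * k) + 1) := by
  rcases (mults n Δ).eq_empty_or_nonempty with h0 | hne
  · have : mS n Δ = 0 := by unfold mS; rw [h0]; exact csSup_empty
    rw [this]
    simp only [Nat.cast_zero]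
    positivity
  · obtain ⟨h2, G, D, hG, hd, hk'⟩ := Nat.sSup_mem hne (mults_bdd n Δ)
    have : mS n Δ = multLam2 h2 G D := hk'
    rw [this]
    exact TH994.Mult.explicit Δ k hk h2 G D hG hd

theorem mS_zero (n : ℕ) : mS n 0 = 0 := by
  have h0 : mults n 0 = ∅ := by
    rw [Set.eq_empty_iff_forall_notMem]
    rintro k ⟨hn, G, D, hconn, hdeg, -⟩
    have hnt : Nontrivial (Fin n) := Fin.nontrivial_iff_two_le.mpr hn
    obtain ⟨w, hw⟩ := hconn.preconnected.exists_adj_of_nontrivial (⟨0, by omega⟩ : Fin n)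
    have h1 := hdeg ⟨0, by omega⟩
    rw [Nat.le_zero, Set.ncard_eq_zero (Set.toFinite _)] at h1
    have : w ∈ G.neighborSet ⟨0, by omega⟩ := hw
    rw [h1] at this
    exact this
  unfold mS
  rw [h0]
  exact csSup_empty

theorem mS_eventually (Δ : ℕ) : ∀ᶠ n : ℕ in atTop, (mS n Δ : ℝ) ≤
    257 * Δ * (n * (Real.log (Real.log n) / Real.log n) ^ 2) := by
  rcases Nat.eq_zero_or_pos Δ with h | h
  · subst h
    filter_upwards with n
    rw [mS_zero]
    simp
  · filter_upwards [TH994.Mult.numeric Δ h] with n hn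
    obtain ⟨k, hk, hle⟩ := hn
    exact (mS_le Δ k hk n).trans hle

/-- **Theorem.** Let `m_S(n, Δ)` be the largest multiplicity of the second eigenvalue of a
Schrödinger operator `D + A_G` on a connected graph with `n` vertices and maximum degree at most
`Δ`.

* For all `n`, `Δ` and `k ≥ 1`, `m_S(n, Δ) ≤ (16 Δ / k²) n + (Δ + 1)² (k^(2k) + 1)`.
* For every `Δ` and all large `n`, `m_S(n, Δ) ≤ 257 Δ · n · (log log n / log n)²`.
* For every `Δ`, `m_S(n, Δ) = O(n (log log n / log n)²)` as `n → ∞`. -/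
theorem result :
    (∀ n Δ : ℕ, (mults n Δ).Nonempty → IsGreatest (mults n Δ) (mS n Δ)) ∧
    (∀ n Δ k : ℕ, 1 ≤ k →
      (mS n Δ : ℝ) ≤ 16 * Δ / (k : ℝ) ^ 2 * n + (Δ + 1) ^ 2 * ((k : ℝ) ^ (2 * k) + 1)) ∧
    (∀ Δ : ℕ, ∀ᶠ n : ℕ in atTop, (mS n Δ : ℝ) ≤
      257 * Δ * (n * (Real.log (Real.log n) / Real.log n) ^ 2)) ∧
    (∀ Δ : ℕ, (fun n : ℕ => (mS n Δ : ℝ)) =O[atTop]
      (fun n : ℕ => (n : ℝ) * (Real.log (Real.log n) / Real.log n) ^ 2)) := by
  refine ⟨fun n Δ hne => ⟨Nat.sSup_mem hne (mults_bdd n Δ), fun k hk => le_csSup (mults_bdd n Δ) hk⟩,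
    fun n Δ k hk => mS_le Δ k hk n, mS_eventually, fun Δ => ?_⟩
  rw [isBigO_iff]
  refine ⟨257 * Δ, ?_⟩
  filter_upwards [mS_eventually Δ] with n hn
  rw [Real.norm_natCast, Real.norm_of_nonneg (by positivity)]
  exact hn

end Pool.Agent.Results.MP_1ec91f_co.LogSquaredBound
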