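import Pool.Agent.TH994.Low.Main
import Pool.Agent.TH994.Low.Asym

set_option autoImplicit false

namespace Pool.Agent.Results.MP_1ec91f_co.NearlyLinear

open Filter

/-! ### The notions of the question -/

open Classical in
/-- The Schrödinger operator `D + A_G` of the graph `G` on `n` vertices with the real potential
`D` (the diagonal of the diagonal matrix). -/
noncomputable def schrodinger {n : ℕ} (G : SimpleGraph (Fin n)) (D : Fin n → ℝ) :
    Matrix (Fin n) (Fin n) ℝ := Matrix.diagonal D + G.adjMatrix ℝ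

/-- `D + A_G` is real symmetric. -/
theorem schrodinger_isHermitian {n : ℕ} (G : SimpleGraph (Fin n)) (D : Fin n → ℝ) :
    (schrodinger G D).IsHermitian := by
  classical
  unfold schrodinger
  apply Matrix.IsHermitian.add
  · exact Matrix.isHermitian_diagonal _
  · ext i j
    simp [Matrix.conjTranspose_apply, SimpleGraph.adjMatrix_apply, G.adj_comm]

/-- The second largest eigenvalue `λ₂(D + A_G)`: the eigenvalues are counted with multiplicity and
listed in decreasing order `λ₁ ≥ λ₂ ≥ …`; Mathlib's `eigenvalues₀` is indexed from `0`. -/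
noncomputable def lam2 {n : ℕ} (hn : 2 ≤ n) (G : SimpleGraph (Fin n)) (D : Fin n → ℝ) : ℝ :=
  (schrodinger_isHermitian G D).eigenvalues₀ ⟨1, by rw [Fintype.card_fin]; exact hn⟩

/-- The multiplicity of the number `λ₂(D + A_G)` as an eigenvalue of `D + A_G`
(the dimension of its eigenspace). -/
noncomputable def multLam2 {n : ℕ} (hn : 2 ≤ n) (G : SimpleGraph (Fin n)) (D : Fin n → ℝ) : ℕ :=
  Module.finrank ℝ (Module.End.eigenspace (Matrix.toLin' (schrodinger G D)) (lam2 hn G D))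

/-- The multiplicities of `λ₂(D + A_G)` that occur, over all connected graphs `G` on `n` vertices
with maximum degree at most `Δ` and all real diagonal matrices `D`. -/
def mults (n Δ : ℕ) : Set ℕ :=
  {m | ∃ (hn : 2 ≤ n) (G : SimpleGraph (Fin n)) (D : Fin n → ℝ),
    G.Connected ∧ (∀ v, (G.neighborSet v).ncard ≤ Δ) ∧ m = multLam2 hn G D}

/-- `m_S(n, Δ)`, the maximum of `mult(λ₂, D + A_G)`. -/
noncomputable def mS (n Δ : ℕ) : ℕ := sSup (mults n Δ)

theorem mults_bdd (n Δ : ℕ) : BddAbove (mults n Δ) := by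
  refine ⟨n, ?_⟩
  rintro k ⟨hn, G, D, _, _, rfl⟩
  have := Submodule.finrank_le
    (Module.End.eigenspace (Matrix.toLin' (schrodinger G D)) (lam2 hn G D))
  simpa [multLam2] using this

theorem mS_ge (h k n Δ : ℕ) (hh : 1 ≤ h) (hk : 2 ≤ k) (hkq : k ≤ 2 ^ h)
    (hn : 2 * (2 ^ h) ^ (k + 4) ≤ n) (hΔ : 3 ≤ Δ) :
    (2 ^ h - 1) * (2 ^ h).choose (k - 1) ≤ mS n Δ := by
  obtain ⟨h2, G, D, hG, hd, hm⟩ := TH994.Low.lower h k n hh hk hkq hn
  have hmem : multLam2 h2 G D ∈ mults n Δ := ⟨h2, G, D, hG, fun v => (hd v).trans hΔ, rfl⟩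
  exact le_trans hm (le_csSup (mults_bdd n Δ) hmem)

theorem mS_eventually (Δ : ℕ) (hΔ : 3 ≤ Δ) : ∀ᶠ n : ℕ in atTop,
    (n : ℝ) * Real.exp (-(8 * Real.sqrt (Real.log n * Real.log (Real.log n)))) ≤ mS n Δ := by
  filter_upwards [TH994.Low.asym] with n hn
  obtain ⟨h, k, hh, hk, hkq, h1, h2⟩ := hn
  refine h2.trans ?_
  exact_mod_cast mS_ge h k n Δ hh hk hkq h1 hΔ

theorem rpow_le (ε : ℝ) (hε : 0 < ε) : ∀ᶠ n : ℕ in atTop, (n : ℝ) ^ (1 - ε) ≤
    (n : ℝ) * Real.exp (-(8 * Real.sqrt (Real.log n * Real.log (Real.log n)))) := by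
  have t1 : Tendsto (fun n : ℕ => Real.log (n : ℝ)) atTop atTop :=
    Real.tendsto_log_atTop.comp tendsto_natCast_atTop_atTop
  have t3 : ∀ᶠ y : ℝ in atTop, Real.log y ≤ (ε / 8) ^ 2 * y := by
    have h := (Real.isLittleO_log_id_atTop).bound (show (0 : ℝ) < (ε / 8) ^ 2 by positivity)
    filter_upwards [h, eventually_ge_atTop (1 : ℝ)] with y hy h1
    rw [Real.norm_of_nonneg (Real.log_nonneg h1)] at hy
    simp only [id_eq] at hy
    rw [Real.norm_of_nonneg (by linarith)] at hy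
    exact hy
  filter_upwards [t1.eventually t3, t1.eventually (eventually_gt_atTop (0 : ℝ)),
    eventually_gt_atTop 0] with n h1 h2 hn
  have hn0 : (0 : ℝ) < n := by exact_mod_cast hn
  have h3 : Real.sqrt (Real.log n * Real.log (Real.log n)) ≤ ε / 8 * Real.log n := by
    apply Real.sqrt_le_iff.2
    refine ⟨by positivity, ?_⟩
    calc Real.log n * Real.log (Real.log n) ≤ Real.log n * ((ε / 8) ^ 2 * Real.log n) :=
          mul_le_mul_of_nonneg_left h1 h2.le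
      _ = (ε / 8 * Real.log n) ^ 2 := by ring
  rw [Real.rpow_def_of_pos hn0]
  nth_rewrite 2 [← Real.exp_log hn0]
  rw [← Real.exp_add]
  apply Real.exp_le_exp.2
  nlinarith

/-- **Theorem.** Let `m_S(n, Δ)` be the largest multiplicity of the second eigenvalue of a
Schrödinger operator `D + A_G` on a connected graph with `n` vertices and maximum degree at most
`Δ`, where `Δ ≥ 3`.

* If `q = 2^h ≥ 2`, `2 ≤ k ≤ q` and `n ≥ 2 q^(k+4)`, then `m_S(n, Δ) ≥ (q - 1) C(q, k - 1)`.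
* For all large `n`, `m_S(n, Δ) ≥ n exp(-8 √(log n · log log n))`.
* For every `ε > 0` and all large `n`, `m_S(n, Δ) ≥ n^(1 - ε)`. -/
theorem result :
    (∀ n Δ : ℕ, (mults n Δ).Nonempty → IsGreatest (mults n Δ) (mS n Δ)) ∧
    (∀ h k n Δ : ℕ, 1 ≤ h → 2 ≤ k → k ≤ 2 ^ h → 2 * (2 ^ h) ^ (k + 4) ≤ n → 3 ≤ Δ →
      (2 ^ h - 1) * (2 ^ h).choose (k - 1) ≤ mS n Δ) ∧
    (∀ Δ : ℕ, 3 ≤ Δ → ∀ᶠ n : ℕ in atTop,
      (n : ℝ) * Real.exp (-(8 * Real.sqrt (Real.log n * Real.log (Real.log n)))) ≤ mS n Δ) ∧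
    (∀ Δ : ℕ, 3 ≤ Δ → ∀ ε : ℝ, 0 < ε → ∀ᶠ n : ℕ in atTop, (n : ℝ) ^ (1 - ε) ≤ mS n Δ) := by
  refine ⟨fun n Δ hne => ⟨Nat.sSup_mem hne (mults_bdd n Δ), fun k hk => le_csSup (mults_bdd n Δ) hk⟩,
    fun h k n Δ h1 h2 h3 h4 h5 => mS_ge h k n Δ h1 h2 h3 h4 h5, mS_eventually, ?_⟩
  intro Δ hΔ ε hε
  filter_upwards [mS_eventually Δ hΔ, rpow_le ε hε] with n h1 h2
  exact h2.trans h1

end Pool.Agent.Results.MP_1ec91f_co.NearlyLinear
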